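import Pool.Agent.Helper26.WR.Stmts

set_option autoImplicit false

/-! # Elements of the fixed field all of whose powers have traces with a pole -/

namespace Pool.Agent.Helper26.WR

open Pool.Agent.Helper21.DN

universe u

theorem trc_zpow {L : Type u} [Field L] (v : AddValuation L (WithTop ℤ)) (x : L) (a : ℤ)
    (h : v x = (a : WithTop ℤ)) (z : ℤ) : v (x ^ z) = ((z * a : ℤ) : WithTop ℤ) := by
  have hn : ∀ n : ℕ, v (x ^ n) = (((n : ℤ) * a : ℤ) : WithTop ℤ) := by
    intro n
    induction n with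
    | zero => simp
    | succ n ih =>
      rw [pow_succ, AddValuation.map_mul, ih, h, ← WithTop.coe_add]
      congr 1
      push_cast
      ring
  rcases Int.eq_nat_or_neg z with ⟨n, rfl | rfl⟩
  · rw [zpow_natCast]
    exact hn n
  · rw [zpow_neg, zpow_natCast, AddValuation.map_inv, hn n]
    rw [show (-(n : ℤ)) * a = -((n : ℤ) * a) by ring]
    rfl

theorem trc_vt (k : Type u) [Field k] (L : Type u) [Field L] [Algebra (LaurentSeries k) L]
    [FiniteDimensional (LaurentSeries k) L] (v : AddValuation L (WithTop ℤ))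
    (hval : ∀ x, v x = val k L x) :
    v (algebraMap (LaurentSeries k) L (HahnSeries.single (1 : ℤ) (1 : k))) =
      ((Module.finrank (LaurentSeries k) L : ℤ) : WithTop ℤ) := by
  rw [hval, val, Algebra.norm_algebraMap, HahnSeries.single_pow, one_pow,
    HahnSeries.orderTop_single one_ne_zero]
  simp

theorem trc_int {L : Type u} [Field L] (v : AddValuation L (WithTop ℤ)) (x : L) (hx : x ≠ 0) :
    ∃ n : ℤ, v x = (n : WithTop ℤ) := by
  have h := (AddValuation.ne_top_iff v).2 hx
  obtain ⟨n, hn⟩ := WithTop.ne_top_iff_exists.1 h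
  exact ⟨n, hn.symm⟩

theorem trc_ne {L : Type u} [Field L] (v : AddValuation L (WithTop ℤ)) (x : L) (n : ℤ)
    (h : v x = (n : WithTop ℤ)) : x ≠ 0 := by
  rw [← AddValuation.ne_top_iff v, h]
  exact WithTop.coe_ne_top

open Polynomial in
theorem trc_ind (p : ℕ) [Fact p.Prime] (k : Type u) [Field k] [CharP k p] [IsAlgClosed k]
    (K L : Type u) [Field K] [Field L] [Algebra K L] (κ : k →+* K)
    (v : AddValuation L (WithTop ℤ))
    (hκ : ∀ c : k, c ≠ 0 → v (algebraMap K L (κ c)) = 0)
    (t : K) (d : ℤ) (hd : 1 ≤ d) (hvt : v (algebraMap K L t) = (d : WithTop ℤ))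
    (H : Subgroup (L ≃ₐ[K] L)) (W : Type) [Fintype W] (τ : W → (L ≃ₐ[K] L))
    (x0 : L) (hx0 : ∀ h ∈ H, h x0 = x0) (hS : ∑ w, τ w x0 ≠ 0) (w0 : L)
    (hw0 : ∀ h ∈ H, h w0 = w0) (V : ℤ) (hV : v w0 = (V : WithTop ℤ)) (J : Finset ℕ) :
    (∀ j ∈ J, ¬ p ∣ j) → ∃ w : L, (∀ h ∈ H, h w = w) ∧ v w = (V : WithTop ℤ) ∧
      ∀ j ∈ J, ∑ w', τ w' (w ^ j) ≠ 0 := by
  classical
  have hx00 : x0 ≠ 0 := by
    rintro rfl
    apply hS
    simp
  have : CharP L p :=
    charP_of_injective_ringHom (f := (algebraMap K L).comp κ) (RingHom.injective _) p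
  refine Finset.induction_on J ?_ ?_
  · intro _
    exact ⟨w0, hw0, hV, fun j hj => absurd hj (Finset.notMem_empty j)⟩
  · intro j J' hj ih hp
    obtain ⟨w, hwH, hwV, hw⟩ := ih (fun i hi => hp i (Finset.mem_insert_of_mem hi))
    have hpj : ¬ p ∣ j := hp j (Finset.mem_insert_self j J')
    have hj1 : 1 ≤ j := by
      rcases Nat.eq_zero_or_pos j with h | h
      · exact absurd (h ▸ dvd_zero p) hpj
      · exact h
    have hwne : w ≠ 0 := trc_ne v w V hwV
    have htne : algebraMap K L t ≠ 0 := trc_ne v _ d hvt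
    set y : L := x0 / w ^ (j - 1) with hy
    have hyne : y ≠ 0 := div_ne_zero hx00 (pow_ne_zero _ hwne)
    obtain ⟨Y, hY⟩ := trc_int v y hyne
    set N : ℕ := (V - Y + 1).toNat with hN
    have hNge : V - Y + 1 ≤ (N : ℤ) := Int.self_le_toNat _
    set g : L := (algebraMap K L t) ^ N * y with hg
    have hvg : v g = (((N : ℤ) * d + Y : ℤ) : WithTop ℤ) := by
      have h1 := trc_zpow v _ d hvt (N : ℤ)
      rw [zpow_natCast] at h1
      rw [hg, AddValuation.map_mul, h1, hY, ← WithTop.coe_add]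
    have hgt : V < (N : ℤ) * d + Y := by nlinarith [Int.natCast_nonneg N]
    have hgH : ∀ h ∈ H, h g = g := by
      intro h hh
      rw [hg, hy, map_mul, map_pow, map_div₀, map_pow, hx0 h hh, hwH h hh, AlgEquiv.commutes]
    -- the polynomials
    set P : ℕ → L[X] := fun i => ∑ w', (C (τ w' w) + X * C (τ w' g)) ^ i with hP
    have hPe : ∀ (i : ℕ) (c : k), (P i).eval (algebraMap K L (κ c)) =
        ∑ w', τ w' ((w + algebraMap K L (κ c) * g) ^ i) := by
      intro i c
      rw [hP]
      simp only [eval_finsetSum, eval_pow, eval_add, eval_mul, eval_C, eval_X, map_pow, map_add,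
        map_mul, AlgEquiv.commutes]
    have hP0 : ∀ i ∈ J', P i ≠ 0 := by
      intro i hi h0
      apply hw i hi
      have h1 : (P i).eval 0 = 0 := by rw [h0, eval_zero]
      rw [hP] at h1
      simp only [eval_finsetSum, eval_pow, eval_add, eval_mul, eval_C, eval_X, zero_mul,
        add_zero] at h1
      simpa only [map_pow] using h1
    have hPj : P j ≠ 0 := by
      intro h0
      have h1 : (derivative (P j)).eval 0 = 0 := by rw [h0, derivative_zero, eval_zero]
      have h2 : (derivative (P j)).eval 0 = (j : L) * ∑ w', τ w' (w ^ (j - 1) * g) := by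
        rw [hP]
        simp only [derivative_sum, eval_finsetSum, Finset.mul_sum]
        apply Finset.sum_congr rfl
        intro w' _
        rw [derivative_pow]
        simp only [derivative_add, derivative_C, derivative_mul, derivative_X, eval_mul, eval_C,
          eval_pow, eval_add, eval_X, zero_mul, add_zero, zero_add, one_mul, mul_zero, map_mul,
          map_pow]
        ring
      have h3 : ∑ w', τ w' (w ^ (j - 1) * g) = (algebraMap K L t) ^ N * ∑ w', τ w' x0 := by
        have h4 : w ^ (j - 1) * g = (algebraMap K L t) ^ N * x0 := by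
          rw [hg, hy]
          field_simp
        rw [h4, Finset.mul_sum]
        apply Finset.sum_congr rfl
        intro w' _
        rw [map_mul, map_pow, AlgEquiv.commutes]
      rw [h2, h3] at h1
      have h5 : (j : L) ≠ 0 := fun h => hpj ((CharP.cast_eq_zero_iff L p j).1 h)
      exact mul_ne_zero h5 (mul_ne_zero (pow_ne_zero _ htne) hS) h1
    -- the choice of the parameter
    have hQ : P j * ∏ i ∈ J', P i ≠ 0 :=
      mul_ne_zero hPj (Finset.prod_ne_zero_iff.2 hP0)
    obtain ⟨c, hc⟩ : ∃ c : k, (P j * ∏ i ∈ J', P i).eval (algebraMap K L (κ c)) ≠ 0 := by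
      by_contra hcon
      push Not at hcon
      apply hQ
      apply eq_zero_of_infinite_isRoot
      have hinj : Function.Injective (fun c : k => algebraMap K L (κ c)) :=
        (RingHom.injective ((algebraMap K L).comp κ))
      have : Infinite k := IsAlgClosed.instInfinite
      refine (Set.infinite_range_of_injective hinj).mono ?_
      rintro _ ⟨c, rfl⟩
      exact hcon c
    rw [eval_mul, eval_prod] at hc
    refine ⟨w + algebraMap K L (κ c) * g, ?_, ?_, ?_⟩
    · intro h hh
      rw [map_add, map_mul, AlgEquiv.commutes, hwH h hh, hgH h hh]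
    · have hlt : v w < v (algebraMap K L (κ c) * g) := by
        rw [AddValuation.map_mul, hwV]
        rcases eq_or_ne c 0 with rfl | hc0
        · rw [map_zero, map_zero, AddValuation.map_zero, top_add]
          exact WithTop.coe_lt_top V
        · rw [hκ c hc0, zero_add, hvg]
          exact WithTop.coe_lt_coe.2 hgt
      rw [← hwV]
      exact AddValuation.map_add_eq_of_lt_left v hlt
    · intro i hi
      rw [← hPe i c]
      rcases Finset.mem_insert.1 hi with rfl | hi'
      · exact (mul_ne_zero_iff.1 hc).1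
      · exact (Finset.prod_ne_zero_iff.1 (mul_ne_zero_iff.1 hc).2) i hi'

theorem trc_x0 (K L : Type u) [Field K] [Field L] [Algebra K L] [FiniteDimensional K L]
    [IsGalois K L] (H : Subgroup (L ≃ₐ[K] L)) (W : Type) [Fintype W] (τ : W → (L ≃ₐ[K] L))
    (hτ : Function.Bijective fun w => (QuotientGroup.mk (τ w) : (L ≃ₐ[K] L) ⧸ H)) :
    ∃ x0 : L, (∀ h ∈ H, h x0 = x0) ∧ ∑ w, τ w x0 ≠ 0 := by
  classical
  obtain ⟨θ, hθ⟩ := Algebra.trace_surjective K L 1
  have h1 : ∑ σ : L ≃ₐ[K] L, σ θ = 1 := by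
    rw [← trace_eq_sum_automorphisms, hθ, map_one]
  refine ⟨∑ h : H, (h : L ≃ₐ[K] L) θ, ?_, ?_⟩
  · intro g hg
    rw [map_sum]
    refine Fintype.sum_equiv (Equiv.mulLeft (⟨g, hg⟩ : H)) _ _ ?_
    intro h
    rfl
  · have h2 : ∑ w, τ w (∑ h : H, (h : L ≃ₐ[K] L) θ) = 1 := by
      rw [← h1]
      simp only [map_sum]
      rw [← Fintype.sum_prod_type' (f := fun (w : W) (h : H) => τ w ((h : L ≃ₐ[K] L) θ))]
      refine Fintype.sum_bijective (fun x : W × H => τ x.1 * (x.2 : L ≃ₐ[K] L)) ⟨?_, ?_⟩ _ _ ?_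
      · rintro ⟨w, h⟩ ⟨w', h'⟩ he
        have he' : τ w * (h : L ≃ₐ[K] L) = τ w' * (h' : L ≃ₐ[K] L) := he
        have hw : w = w' := by
          apply hτ.1
          show (QuotientGroup.mk (τ w) : (L ≃ₐ[K] L) ⧸ H) = QuotientGroup.mk (τ w')
          rw [QuotientGroup.eq]
          have : (τ w)⁻¹ * τ w' = (h : L ≃ₐ[K] L) * (h' : L ≃ₐ[K] L)⁻¹ := by
            rw [inv_mul_eq_iff_eq_mul, ← mul_assoc, he', mul_assoc, mul_inv_cancel, mul_one]
          rw [this]
          exact H.mul_mem h.2 (H.inv_mem h'.2)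
        subst hw
        have hh : (h : L ≃ₐ[K] L) = h' := mul_left_cancel he'
        rw [Subtype.ext hh]
      · intro g
        obtain ⟨w, hw⟩ := hτ.2 (QuotientGroup.mk g)
        have hw' : (QuotientGroup.mk (τ w) : (L ≃ₐ[K] L) ⧸ H) = QuotientGroup.mk g := hw
        rw [QuotientGroup.eq] at hw'
        exact ⟨(w, ⟨(τ w)⁻¹ * g, hw'⟩), by simp⟩
      · rintro ⟨w, h⟩
        rfl
    rw [h2]
    exact one_ne_zero

theorem trc_pi (k K L : Type u) [Field k] [Field K] [Field L] [Algebra K L]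
    [FiniteDimensional K L] [IsGalois K L] (κ : k →+* K) (v : AddValuation L (WithTop ℤ))
    (hR : Ram κ v) (H : Subgroup (L ≃ₐ[K] L)) :
    ∃ π : L, (∀ h ∈ H, h π = π) ∧ v π = ((Nat.card H : ℤ) : WithTop ℤ) := by
  obtain ⟨vE, hTV, hvE⟩ := hR.sub (IntermediateField.fixedField H)
  obtain ⟨π, hπ⟩ := hTV.unif
  refine ⟨(π : L), ?_, ?_⟩
  · intro h hh
    exact (IntermediateField.mem_fixedField_iff H (π : L)).1 π.2 h hh
  · rw [hvE π, hπ, IntermediateField.finrank_fixedField_eq_card]
    have h1 : ∀ n : ℕ, n • (1 : WithTop ℤ) = ((n : ℤ) : WithTop ℤ) := by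
      intro n
      induction n with
      | zero => simp
      | succ n ih =>
        rw [succ_nsmul, ih]
        rfl
    exact h1 _

theorem st_TRC : ST_TRC := by
  intro p _ k _ _ _ L _ _ _ _ v hval hRam H W _ τ hτ J hJ e a m0
  classical
  obtain ⟨x0, hx0, hS⟩ := trc_x0 (LaurentSeries k) L H W τ hτ
  obtain ⟨π, hπH, hπ⟩ := trc_pi k (LaurentSeries k) L (κ0 k) v hRam H
  have hfr : 1 ≤ (Module.finrank (LaurentSeries k) L : ℤ) := by
    have : 0 < Module.finrank (LaurentSeries k) L := Module.finrank_pos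
    omega
  set t : LaurentSeries k := HahnSeries.single (1 : ℤ) (1 : k) with ht
  have hvt := trc_vt k L v hval
  rw [← ht] at hvt
  have hw0 := trc_zpow v π _ hπ (-e)
  obtain ⟨w, hwH, hwV, hw⟩ := trc_ind p k (LaurentSeries k) L (κ0 k) v
    (fun c hc => hRam.tv.alg c hc) t _ hfr hvt H W τ x0 hx0 hS (π ^ (-e))
    (fun h hh => by rw [map_zpow₀, hπH h hh]) _ hw0 J hJ
  -- the values of the traces
  have hB : ∀ j : ℕ, ∃ b : ℤ, j ∈ J → v (∑ w', τ w' (w ^ j)) = (b : WithTop ℤ) := by
    intro j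
    by_cases hj : j ∈ J
    · obtain ⟨b, hb⟩ := trc_int v _ (hw j hj)
      exact ⟨b, fun _ => hb⟩
    · exact ⟨0, fun h => absurd h hj⟩
  choose B hB using hB
  set A' : ℕ := (∑ j ∈ J, (B j).natAbs) + 1 + m0 + e.natAbs with hA'
  set A : ℕ := p ^ a * A' with hA
  have hpa : 1 ≤ p ^ a := Nat.one_le_pow _ _ (Fact.out : p.Prime).pos
  have hAA : A' ≤ A := by
    rw [hA]
    exact Nat.le_mul_of_pos_left _ hpa
  have hq : 1 ≤ H.index := Nat.one_le_iff_ne_zero.2 Subgroup.index_ne_zero_of_finite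
  have hcard : Nat.card H * H.index = Module.finrank (LaurentSeries k) L := by
    rw [Subgroup.card_mul_index, IsGalois.card_aut_eq_finrank]
  have hmpos : (m0 : ℤ) ≤ (A : ℤ) * H.index + e := by
    have h1 : (A' : ℤ) ≤ (A : ℤ) * H.index := by
      have h2 : A' ≤ A * H.index := le_trans hAA (Nat.le_mul_of_pos_right _ hq)
      exact_mod_cast h2
    have h3 : (A' : ℤ) = (∑ j ∈ J, (B j).natAbs : ℕ) + 1 + m0 + e.natAbs := by
      rw [hA']
      push_cast
      ring
    have h4 : -(e.natAbs : ℤ) ≤ e := by omega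
    have h5 : (0 : ℤ) ≤ ((∑ j ∈ J, (B j).natAbs : ℕ) : ℤ) := Int.natCast_nonneg _
    linarith
  set m : ℕ := ((A : ℤ) * H.index + e).toNat with hm
  have hmz : (m : ℤ) = (A : ℤ) * H.index + e := by
    rw [hm]
    exact Int.toNat_of_nonneg (le_trans (Int.natCast_nonneg m0) hmpos)
  set T : L := (algebraMap (LaurentSeries k) L t) ^ (-(A : ℤ)) * w with hT
  have hTa : ∀ z : ℤ, ∀ g : L ≃ₐ[LaurentSeries k] L,
      g ((algebraMap (LaurentSeries k) L t) ^ z) = (algebraMap (LaurentSeries k) L t) ^ z := by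
    intro z g
    rw [map_zpow₀, AlgEquiv.commutes]
  refine ⟨T, m, ?_, ?_, ?_, ?_, ?_⟩
  · have : (m0 : ℤ) ≤ (m : ℤ) := by rw [hmz]; exact hmpos
    exact_mod_cast this
  · rw [hmz, hA]
    refine ⟨(A' : ℤ) * H.index, ?_⟩
    push_cast
    ring
  · intro h hh
    rw [hT, map_mul, hTa, hwH h hh]
  · rw [hT, AddValuation.map_mul, trc_zpow v _ _ hvt, hwV, ← WithTop.coe_add]
    congr 1
    push_cast
    rw [hmz, ← hcard]
    push_cast
    ring
  · intro j hj
    have hTj : ∑ w', τ w' (T ^ j) = (algebraMap (LaurentSeries k) L t) ^ (-(A : ℤ) * j) *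
        ∑ w', τ w' (w ^ j) := by
      rw [Finset.mul_sum]
      apply Finset.sum_congr rfl
      intro w' _
      rw [hT, mul_pow, map_mul, ← zpow_natCast, ← zpow_mul, hTa]
    have hj1 : 1 ≤ j := by
      rcases Nat.eq_zero_or_pos j with h | h
      · exact absurd (h ▸ dvd_zero p) (hJ j hj)
      · exact h
    rw [hTj, AddValuation.map_mul, trc_zpow v _ _ hvt, hB j hj, ← WithTop.coe_add]
    have hlt : -(A : ℤ) * j * (Module.finrank (LaurentSeries k) L : ℤ) + B j < 0 := by
      have h1 : (B j).natAbs ≤ ∑ j ∈ J, (B j).natAbs :=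
        Finset.single_le_sum (f := fun j => (B j).natAbs) (fun _ _ => Nat.zero_le _) hj
      have h2 : (B j).natAbs < A := by omega
      have h3 : B j < A := by omega
      have h4 : (A : ℤ) ≤ A * j * (Module.finrank (LaurentSeries k) L : ℤ) := by
        have h5 : A ≤ A * j * Module.finrank (LaurentSeries k) L := by
          have h6 : 0 < Module.finrank (LaurentSeries k) L := Module.finrank_pos
          calc A ≤ A * j := Nat.le_mul_of_pos_right _ hj1
            _ ≤ _ := Nat.le_mul_of_pos_right _ h6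
        exact_mod_cast h5
      linarith
    exact_mod_cast hlt

end Pool.Agent.Helper26.WR
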